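import Pool.Agent.TH669.KS.Num

set_option autoImplicit false
set_option linter.unusedSectionVars false

/-!
# Long cycles and large 2-connected subgraphs: one fixed point and blocks attached to it
-/

namespace Pool.Agent.Q226.HS

open Finset
open Pool.Agent.H119R2.Kp (GP PV)
open Pool.Agent.TH669.KP (sgn bit GR GR_adj bit_pos bit_neg bit_congr bit_not bit_and sum_sgn
  sgn_sum sgn_sigma sum_split sum_sigma_fun sum_prod_fun Stp)
open Pool.Agent.TH669.KC (Pr Cl cls cls_zero cls_of_ne cls_neg Vx Jx orb orb_symm orb_self orb_same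
  orb_diff orb_ns orb_sn orb_nn relation)
open Pool.Agent.TH669.KS (SS gn Gm Gm_pos HasC hasC_of_list hasC_of_fun ham_cycle Cyc exists_compl
  sup_card bit_forall sum_false)

/-- `G` has a 2-connected subgraph with at least `s` vertices -/
def Blk {V : Type} (G : SimpleGraph V) (s : ℕ) : Prop :=
  ∃ U : Set V, s ≤ U.ncard ∧ (G.induce U).Connected ∧
    ∀ v ∈ U, (G.induce (U \ {v})).Connected

section map

variable {V W : Type} {G : SimpleGraph V} (e : V ≃ W)

theorem conn_map {U : Set W} (h : ((G.map e.toEmbedding).induce U).Connected) :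
    (G.induce (e ⁻¹' U)).Connected := by
  let φ : G.induce (e ⁻¹' U) ≃g (G.map e.toEmbedding).induce U :=
    { toEquiv := e.subtypeEquiv fun a => Iff.rfl
      map_rel_iff' := by
        intro a b
        exact SimpleGraph.map_adj_apply (f := e.toEmbedding) }
  exact φ.connected_iff.2 h

theorem blk_map [Finite V] {s : ℕ} (h : Blk (G.map e.toEmbedding) s) : Blk G s := by
  obtain ⟨U, h1, h2, h3⟩ := h
  refine ⟨e ⁻¹' U, ?_, conn_map e h2, ?_⟩
  · have h4 : (e ⁻¹' U) = e.symm '' U := by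
      rw [Equiv.image_symm_eq_preimage]
    rw [h4, Set.ncard_image_of_injective _ e.symm.injective]
    exact h1
  · intro v hv
    have h4 : (e ⁻¹' U) \ {v} = e ⁻¹' (U \ {e v}) := by
      ext x
      simp
    rw [h4]
    exact conn_map e (h3 _ hv)

end map

section graph

variable {I : Type} {A : I → Type} [∀ i, AddCommGroup (A i)] [∀ i, DecidableEq (A i)]
  [DecidableEq I]

/-- the graph of a configuration -/
abbrev Gx (χ : Jx A → Bool) : SimpleGraph (Vx A) := GR orb orb_symm orb_self χ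

theorem adj_same (χ : Jx A → Bool) (i : I) (x y : A i) :
    (Gx χ).Adj (some ⟨i, x⟩) (some ⟨i, y⟩) ↔ x - y ∈ SS (fun d => χ (.inr ⟨i, d⟩)) := by
  rw [GR_adj, orb_same]
  constructor
  · rintro ⟨j, hj, h⟩
    rw [Option.map_eq_some_iff] at hj
    obtain ⟨d, hd, rfl⟩ := hj
    exact ⟨d, hd, h⟩
  · rintro ⟨d, hd, h⟩
    refine ⟨.inr ⟨i, d⟩, ?_, h⟩
    rw [hd]
    rfl

theorem adj_diff (χ : Jx A → Bool) {i j : I} (hij : i ≠ j) (x : A i) (y : A j) :
    (Gx χ).Adj (some ⟨i, x⟩) (some ⟨j, y⟩) ↔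
      χ (.inl (.inr ⟨s(i, j), by rw [Sym2.mk_isDiag_iff]; exact hij⟩)) = true := by
  rw [GR_adj, orb_diff hij]
  constructor
  · rintro ⟨e, he, h⟩
    simp only [Option.some.injEq] at he
    rw [he]
    exact h
  · intro h
    exact ⟨_, rfl, h⟩

theorem adj_none (χ : Jx A → Bool) (i : I) (x : A i) :
    (Gx χ).Adj none (some ⟨i, x⟩) ↔ χ (.inl (.inl i)) = true := by
  rw [GR_adj, orb_ns]
  constructor
  · rintro ⟨e, he, h⟩
    simp only [Option.some.injEq] at he
    rw [he]
    exact h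
  · intro h
    exact ⟨_, rfl, h⟩

variable [Fintype I] [∀ i, Fintype (A i)]

/-- the Hamiltonian cycle of a component -/
theorem comp_cycle (χ : Jx A → Bool) (i : I)
    (h3 : 3 ≤ Nat.card (gn (fun d => χ (.inr ⟨i, d⟩)))) :
    ∃ (L : List (Vx A)) (α β : A i), L.Nodup ∧ L.IsChain (Gx χ).Adj ∧ none ∉ L ∧
      L.head? = some (some ⟨i, α⟩) ∧ L.getLast? = some (some ⟨i, β⟩) ∧
      (Gx χ).Adj (some ⟨i, β⟩) (some ⟨i, α⟩) ∧
      L.length = Nat.card (gn (fun d => χ (.inr ⟨i, d⟩))) := by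
  set T := SS (fun d => χ (.inr ⟨i, d⟩)) with hT
  have h3' : 3 ≤ Nat.card (AddSubgroup.closure T) := h3
  obtain ⟨L, α, β, hL, hlen⟩ := ham_cycle (A := AddSubgroup.closure T)
    (((↑) : AddSubgroup.closure T → A i) ⁻¹' T) (AddSubgroup.closure_closure_coe_preimage) h3'
  have hadj : ∀ x y : AddSubgroup.closure T,
      Stp (((↑) : AddSubgroup.closure T → A i) ⁻¹' T) x y →
      (Gx χ).Adj (some ⟨i, (x : A i)⟩) (some ⟨i, (y : A i)⟩) := by
    intro x y h
    rcases h with h | h
    · exact ((adj_same χ i y x).2 h).symm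
    · exact (adj_same χ i x y).2 h
  refine ⟨L.map fun x : AddSubgroup.closure T => (some ⟨i, (x : A i)⟩ : Vx A), α, β, ?_, ?_, ?_, ?_, ?_,
    hadj _ _ hL.cl, ?_⟩
  · refine hL.nd.map ?_
    intro x y hxy
    simpa using hxy
  · exact List.isChain_map_of_isChain _ hadj hL.ch
  · intro h
    rw [List.mem_map] at h
    obtain ⟨x, _, hx⟩ := h
    cases hx
  · rw [List.head?_map, hL.hd]
    rfl
  · rw [List.getLast?_map, hL.lt]
    rfl
  · rw [List.length_map, hlen]
    rfl

theorem win_inner {s : ℕ} (χ : Jx A → Bool) (i : I)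
    (h3 : 3 ≤ Nat.card (gn (fun d => χ (.inr ⟨i, d⟩))))
    (hs : s ≤ Nat.card (gn (fun d => χ (.inr ⟨i, d⟩)))) : HasC (Gx χ) s := by
  obtain ⟨L, α, β, h1, h2, _, h4, h5, h6, h7⟩ := comp_cycle χ i h3
  exact hasC_of_list (Gx χ) s L (by rw [h7]; exact hs) h1 h2 h4 h5 h6

theorem win_star {s : ℕ} (χ : Jx A → Bool) (i : I) (hκ : χ (.inl (.inl i)) = true)
    (h3 : 3 ≤ Nat.card (gn (fun d => χ (.inr ⟨i, d⟩))))
    (hs : s ≤ Nat.card (gn (fun d => χ (.inr ⟨i, d⟩))) + 1) : HasC (Gx χ) s := by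
  obtain ⟨L, α, β, h1, h2, hn, h4, h5, _, h7⟩ := comp_cycle χ i h3
  refine hasC_of_list (Gx χ) s (none :: L) ?_ ?_ ?_ (α := none) (β := some ⟨i, β⟩) rfl ?_ ?_
  · rw [List.length_cons, h7]
    exact hs
  · exact List.nodup_cons.2 ⟨hn, h1⟩
  · rw [List.isChain_cons]
    refine ⟨?_, h2⟩
    intro y hy
    rw [h4] at hy
    simp only [Option.mem_def, Option.some.injEq] at hy
    rw [← hy]
    exact (adj_none χ i α).2 hκ
  · cases L with
    | nil => simp at h4
    | cons a L => rw [List.getLast?_cons_cons]; exact h5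
  · exact ((adj_none χ i β).2 hκ).symm

theorem win_cross {s : ℕ} (hs : 1 ≤ s) (χ : Jx A → Bool) {i j : I} (hij : i ≠ j)
    (h : χ (.inl (.inr ⟨s(i, j), by rw [Sym2.mk_isDiag_iff]; exact hij⟩)) = true)
    (hi : s ≤ 2 * Fintype.card (A i)) (hj : s ≤ 2 * Fintype.card (A j)) : HasC (Gx χ) s := by
  classical
  set r := (s + 1) / 2 with hr
  have key : ∀ i : I, r ≤ Fintype.card (A i) → ∃ f : ℕ → A i, ∀ a b, a < r → b < r →
      f a = f b → a = b := by
    intro i hi
    have e : Fin (Fintype.card (A i)) ≃ A i := (Fintype.equivFin (A i)).symm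
    refine ⟨fun a => if h : a < Fintype.card (A i) then e ⟨a, h⟩ else 0, ?_⟩
    intro a b ha hb hab
    simp only [dif_pos (lt_of_lt_of_le ha hi), dif_pos (lt_of_lt_of_le hb hi)] at hab
    have := e.injective hab
    simpa using this
  obtain ⟨f, hf⟩ := key i (by omega)
  obtain ⟨g, hg⟩ := key j (by omega)
  have hadj : ∀ (x : A i) (y : A j), (Gx χ).Adj (some ⟨i, x⟩) (some ⟨j, y⟩) := fun x y =>
    (adj_diff χ hij x y).2 h
  refine hasC_of_fun (Gx χ) s (2 * r) (by omega) (by omega)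
    (fun k => if k % 2 = 0 then some ⟨i, f (k / 2)⟩ else some ⟨j, g (k / 2)⟩) ?_ ?_ ?_
  · intro a b ha hb hab
    by_cases h1 : a % 2 = 0
    · by_cases h2 : b % 2 = 0
      · rw [if_pos h1, if_pos h2] at hab
        simp only [Option.some.injEq, Sigma.mk.injEq, heq_eq_eq, true_and] at hab
        have := hf _ _ (by omega) (by omega) hab
        omega
      · rw [if_pos h1, if_neg h2] at hab
        simp only [Option.some.injEq, Sigma.mk.injEq] at hab
        exact absurd hab.1 hij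
    · by_cases h2 : b % 2 = 0
      · rw [if_neg h1, if_pos h2] at hab
        simp only [Option.some.injEq, Sigma.mk.injEq] at hab
        exact absurd hab.1 hij.symm
      · rw [if_neg h1, if_neg h2] at hab
        simp only [Option.some.injEq, Sigma.mk.injEq, heq_eq_eq, true_and] at hab
        have := hg _ _ (by omega) (by omega) hab
        omega
  · intro a ha
    by_cases h1 : a % 2 = 0
    · rw [if_pos h1, if_neg (by omega)]
      exact hadj _ _
    · rw [if_neg h1, if_pos (by omega)]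
      exact (hadj _ _).symm
  · rw [if_neg (by omega), if_pos (by norm_num)]
    exact (hadj _ _).symm

/-- a connected set without the fixed point lies in one component of a block -/
theorem coset_of_reach (χ : Jx A → Bool) (hcr : ∀ e, χ (.inl (.inr e)) = false)
    {W : Set (Vx A)} (hW : none ∉ W) (i : I) (x : A i) {u v : W}
    (h : ((Gx χ).induce W).Reachable u v)
    (hu : ∃ z ∈ gn (fun d => χ (.inr ⟨i, d⟩)), u.1 = some ⟨i, x + z⟩) :
    ∃ z ∈ gn (fun d => χ (.inr ⟨i, d⟩)), v.1 = some ⟨i, x + z⟩ := by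
  obtain ⟨w⟩ := h
  induction w with
  | nil => exact hu
  | @cons a b c hab _ ih =>
    apply ih
    obtain ⟨z, hz, hz2⟩ := hu
    have h1 : (Gx χ).Adj a.1 b.1 := hab
    rw [hz2] at h1
    have h2 := b.2
    rcases hb : b.1 with _ | ⟨j, y⟩
    · rw [hb] at h2
      exact absurd h2 hW
    · rw [hb] at h1
      by_cases hij : i = j
      · subst hij
        rw [adj_same] at h1
        have h3 : x + z - y ∈ gn (fun d => χ (.inr ⟨i, d⟩)) := AddSubgroup.subset_closure h1
        refine ⟨y - x, ?_, by rw [add_sub_cancel]⟩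
        have h4 : y - x = z - (x + z - y) := by abel
        rw [h4]
        exact AddSubgroup.sub_mem _ hz h3
      · rw [adj_diff χ hij, hcr] at h1
        cases h1

theorem ncard_le (χ : Jx A → Bool) (hcr : ∀ e, χ (.inl (.inr e)) = false)
    {W : Set (Vx A)} (hW : none ∉ W) (hc : ((Gx χ).induce W).Connected) (i : I) (x : A i)
    (hx : some ⟨i, x⟩ ∈ W) :
    W.ncard ≤ Nat.card (gn (fun d => χ (.inr ⟨i, d⟩))) ∧ ∀ u ∈ W, ∃ y : A i, u = some ⟨i, y⟩ := by
  set H := gn (fun d => χ (.inr ⟨i, d⟩)) with hH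
  have key : ∀ u ∈ W, ∃ z ∈ H, u = some ⟨i, x + z⟩ := by
    intro u hu
    exact coset_of_reach χ hcr hW i x (hc.preconnected ⟨_, hx⟩ ⟨u, hu⟩)
      ⟨0, H.zero_mem, by rw [add_zero]⟩
  refine ⟨?_, fun u hu => ?_⟩
  · have h1 : W ⊆ (fun z : H => (some ⟨i, x + z.1⟩ : Vx A)) '' Set.univ := by
      intro u hu
      obtain ⟨z, hz, rfl⟩ := key u hu
      exact ⟨⟨z, hz⟩, trivial, rfl⟩
    refine (Set.ncard_le_ncard h1 (Set.toFinite _)).trans ?_
    refine (Set.ncard_image_le (Set.toFinite _)).trans ?_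
    rw [Set.ncard_univ]
  · obtain ⟨z, _, rfl⟩ := key u hu
    exact ⟨_, rfl⟩

theorem lose {s : ℕ} (hs : 2 ≤ s) (χ : Jx A → Bool) (hcr : ∀ e, χ (.inl (.inr e)) = false)
    (hbad : ∀ i, Nat.card (gn (fun d => χ (.inr ⟨i, d⟩))) < s - 1 ∨
      (Nat.card (gn (fun d => χ (.inr ⟨i, d⟩))) = s - 1 ∧ χ (.inl (.inl i)) = false)) :
    ¬ Blk (Gx χ) s := by
  classical
  rintro ⟨U, hU, hc, h2⟩
  by_cases hn : none ∈ U
  · have hc' := h2 none hn
    obtain ⟨w⟩ := hc'.nonempty
    have hW : none ∉ U \ {none} := fun h => h.2 rfl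
    rcases hw : w.1 with _ | ⟨i, x⟩
    · have := w.2
      rw [hw] at this
      exact hW this
    · have hx : some ⟨i, x⟩ ∈ U \ {none} := by
        rw [← hw]
        exact w.2
      obtain ⟨h3, h4⟩ := ncard_le χ hcr hW hc' i x hx
      have h5 : (U \ {none}).ncard = U.ncard - 1 := Set.ncard_sdiff_singleton_of_mem hn
      have h6 := hbad i
      have h7 : χ (.inl (.inl i)) = false := by
        rcases h6 with h6 | h6
        · omega
        · exact h6.2
      -- the fixed point is isolated in `U`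
      obtain ⟨p⟩ := hc.preconnected ⟨none, hn⟩ ⟨some ⟨i, x⟩, hx.1⟩
      cases p with
      | @cons _ b _ hab _ =>
        have h8 : (Gx χ).Adj none b.1 := hab
        have h9 : b.1 ≠ none := h8.ne'
        obtain ⟨y, hy⟩ := h4 b.1 ⟨b.2, h9⟩
        rw [hy, adj_none, h7] at h8
        cases h8
  · obtain ⟨w⟩ := hc.nonempty
    rcases hw : w.1 with _ | ⟨i, x⟩
    · have := w.2
      rw [hw] at this
      exact hn this
    · have hx : some ⟨i, x⟩ ∈ U := by
        rw [← hw]
        exact w.2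
      obtain ⟨h3, _⟩ := ncard_le χ hcr hn hc i x hx
      have h6 := hbad i
      omega

end graph

end Pool.Agent.Q226.HS
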