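import Pool.Agent.Q226.HS.Core

set_option autoImplicit false
set_option linter.unusedSectionVars false

/-!
# Evaluation of the relation
-/

namespace Pool.Agent.Q226.HS

open Finset
open Pool.Agent.H119R2.Kp (GP PV)
open Pool.Agent.TH669.KP (sgn bit GR GR_adj bit_pos bit_neg bit_congr bit_not bit_and sum_sgn
  sgn_sum sgn_sigma sum_split sum_sigma_fun sum_prod_fun Stp)
open Pool.Agent.TH669.KC (Pr Cl cls Vx Jx orb orb_symm orb_self relation)
open Pool.Agent.TH669.KS (SS gn Gm Gm_pos HasC exists_compl sup_card bit_forall sum_false)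

section sub

variable {B : Type} [AddCommGroup B] [DecidableEq B] [Fintype B]

/-- in a group of squarefree exponent there are subgroups of all possible orders -/
theorem exists_sub (hsq : ∀ x : B, Squarefree (addOrderOf x)) (t : ℕ) : ∀ (N : ℕ)
    (H : AddSubgroup B), Nat.card H = N → t ∣ N → ∃ K : AddSubgroup B, Nat.card K = t := by
  intro N
  induction N using Nat.strong_induction_on with
  | _ N ih =>
  intro H hHN ht
  obtain ⟨r, hr⟩ := ht
  have hN0 : 0 < N := by
    rw [← hHN]
    exact Nat.card_pos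
  by_cases hr1 : r = 1
  · exact ⟨H, by rw [hHN, hr, hr1, mul_one]⟩
  · obtain ⟨p, hp, q, hq⟩ := Nat.exists_prime_and_dvd hr1
    have hpH : p ∣ Nat.card H := by
      rw [hHN, hr, hq]
      exact ⟨t * q, by ring⟩
    have : Fact p.Prime := ⟨hp⟩
    obtain ⟨x, hx⟩ := exists_prime_addOrderOf_dvd_card' (G := H) p hpH
    have hx' : addOrderOf x.1 = p := by
      rw [← hx]
      exact AddSubgroup.addOrderOf_coe x
    obtain ⟨K, hK1, hK2⟩ := exists_compl hsq hp hx' x.2
    have h3 := sup_card hp hx' hK1 hK2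
    have h4 : Nat.card K = t * q := by
      have h5 : Nat.card K * p = t * q * p := by
        rw [← h3, hHN, hr, hq]
        ring
      exact Nat.eq_of_mul_eq_mul_right hp.pos h5
    have hK0 : 0 < Nat.card K := Nat.card_pos
    refine ih (Nat.card K) ?_ K rfl ⟨q, h4⟩
    rw [← hHN, h3]
    have := hp.one_lt
    nlinarith

open ArithmeticFunction in
/-- the signed number of configurations generating a subgroup of order `t` does not vanish -/
theorem sum_card_ne (hsq : ∀ x : B, Squarefree (addOrderOf x)) (t : ℕ)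
    (ht : t ∣ Fintype.card B) :
    ∑ χ : Cl B → Bool, sgn χ * bit (Nat.card (gn χ) = t) ≠ 0 := by
  classical
  have h1 : ∑ χ : Cl B → Bool, sgn χ * bit (Nat.card (gn χ) = t) =
      ∑ H : AddSubgroup B, bit (Nat.card H = t) * Gm H := by
    unfold Gm
    simp_rw [Finset.mul_sum]
    rw [Finset.sum_comm]
    refine Finset.sum_congr rfl fun χ _ => ?_
    rw [Finset.sum_eq_single (gn χ)]
    · rw [bit_pos (rfl : gn χ = gn χ)]
      ring
    · intro H _ hH
      rw [bit_neg (fun h : gn χ = H => hH h.symm), mul_zero, mul_zero]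
    · intro h
      exact absurd (Finset.mem_univ _) h
  obtain ⟨K, hK⟩ := exists_sub hsq t _ (⊤ : AddSubgroup B) rfl (by
    rw [AddSubgroup.card_top, Nat.card_eq_fintype_card]
    exact ht)
  have h2 : 0 < (-1 : ℤ) ^ (cardFactors t) *
      ∑ H : AddSubgroup B, bit (Nat.card H = t) * Gm H := by
    rw [Finset.mul_sum]
    refine Finset.sum_pos' (fun H _ => ?_) ⟨K, Finset.mem_univ _, ?_⟩
    · by_cases h : Nat.card H = t
      · rw [bit_pos h, one_mul]
        have := Gm_pos hsq _ H rfl
        rw [h] at this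
        exact this.le
      · rw [bit_neg h, zero_mul, mul_zero]
    · rw [bit_pos hK, one_mul]
      have := Gm_pos hsq _ K rfl
      rwa [hK] at this
  rw [h1]
  intro h3
  rw [h3, mul_zero] at h2
  exact lt_irrefl _ h2

end sub

section main

variable {I : Type} {A : I → Type} [∀ i, AddCommGroup (A i)] [∀ i, DecidableEq (A i)]
  [DecidableEq I] [Fintype I] [∀ i, Fintype (A i)]

/-- the condition on a block -/
def Bad (s : ℕ) {B : Type} [AddCommGroup B] [DecidableEq B] [Fintype B] (b : Bool)
    (η : Cl B → Bool) : Prop :=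
  Nat.card (gn η) < s - 1 ∨ (Nat.card (gn η) = s - 1 ∧ b = false)

theorem sum_bad (s : ℕ) {B : Type} [AddCommGroup B] [DecidableEq B] [Fintype B] :
    ∑ b : Bool, ∑ η : Cl B → Bool, (if b = true then (-1 : ℤ) else 1) *
      (sgn η * bit (Bad s b η)) = ∑ η : Cl B → Bool, sgn η * bit (Nat.card (gn η) = s - 1) := by
  rw [Fintype.sum_bool, ← Finset.sum_add_distrib]
  refine Finset.sum_congr rfl fun η _ => ?_
  rcases lt_trichotomy (Nat.card (gn η)) (s - 1) with h | h | h
  · have h1 : Bad s true η := Or.inl h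
    have h2 : Bad s false η := Or.inl h
    rw [bit_pos h1, bit_pos h2, bit_neg h.ne]
    simp
  · have h1 : ¬ Bad s true η := by
      rintro (h1 | ⟨_, h1⟩)
      · omega
      · cases h1
    have h2 : Bad s false η := Or.inr ⟨h, rfl⟩
    rw [bit_neg h1, bit_pos h2, bit_pos h]
    simp
  · have h1 : ∀ b, ¬ Bad s b η := by
      rintro b (h1 | ⟨h1, _⟩)
      · omega
      · omega
    rw [bit_neg (h1 true), bit_neg (h1 false), bit_neg h.ne']
    simp

/-- **The block theorem.** -/
theorem blocks {n q s : ℕ} {Q : SimpleGraph (Fin n) → Prop} (hQ : GP n q Q)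
    (hlow : ∀ H, HasC H s → Q H) (hup : ∀ H, Q H → Blk H s)
    (hV : Fintype.card (Vx A) = n) (p : ℕ) [Fact p.Prime] {ι : Type} [Fintype ι]
    (a : ι → ∀ i, A i) (c : ∀ i, A i) (hap : ∀ i, p • a i = 0)
    (hgen : ∀ t : ∀ i, A i, t ∈ AddSubgroup.closure (insert c (Set.range a)))
    (hq : q < n.choose 2) (hs : 4 ≤ s) [Nonempty I] (hA : ∀ i, (s - 1) ∣ Fintype.card (A i))
    (hsq : ∀ i (x : A i), Squarefree (addOrderOf x)) : False := by
  classical
  have hrel := relation hQ hV p a c hap hgen hq
  have hA' : ∀ i, s - 1 ≤ Fintype.card (A i) := fun i =>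
    Nat.le_of_dvd Fintype.card_pos (hA i)
  obtain ⟨i0⟩ := ‹Nonempty I›
  have hJ : Nonempty (Jx A) := ⟨.inl (.inl i0)⟩
  set Ls : (Jx A → Bool) → Prop := fun χ => (∀ e, χ (.inl (.inr e)) = false) ∧
    ∀ i, Bad s (χ (.inl (.inl i))) (fun d => χ (.inr ⟨i, d⟩)) with hLs
  have hbit : ∀ χ : Jx A → Bool, bit (PV Q (Vx A) (Gx χ)) = 1 - bit (Ls χ) := by
    intro χ
    rw [← bit_not]
    refine bit_congr ⟨?_, ?_⟩
    · rintro ⟨e, he⟩ ⟨h1, h2⟩
      exact lose (by omega) χ h1 h2 (blk_map e (hup _ he))
    · intro h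
      have hC : HasC (Gx χ) s := by
        by_cases h1 : ∀ e, χ (.inl (.inr e)) = false
        · have h2 : ¬ ∀ i, Bad s (χ (.inl (.inl i))) (fun d => χ (.inr ⟨i, d⟩)) :=
            fun h2 => h ⟨h1, h2⟩
          push Not at h2
          obtain ⟨i, hi⟩ := h2
          unfold Bad at hi
          push Not at hi
          obtain ⟨hi1, hi2⟩ := hi
          by_cases hκ : χ (.inl (.inl i)) = true
          · exact win_star χ i hκ (by omega) (by omega)
          · have h3 : Nat.card (gn fun d => χ (.inr ⟨i, d⟩)) ≠ s - 1 := by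
              intro h3
              exact hi2 h3 (by simpa using hκ)
            exact win_inner χ i (by omega) (by omega)
        · push Not at h1
          obtain ⟨⟨e, he⟩, h1⟩ := h1
          induction e using Sym2.ind with
          | _ i j =>
          have hij : i ≠ j := by rwa [Sym2.mk_isDiag_iff] at he
          have h3 := hA' i
          have h4 := hA' j
          exact win_cross (by omega) χ hij (by simpa using h1) (by omega) (by omega)
      let e : Vx A ≃ Fin n := Fintype.equivFinOfCardEq hV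
      refine ⟨e, hlow _ (hC.map e e.injective fun u v huv => ?_)⟩
      exact (SimpleGraph.map_adj_apply (f := e.toEmbedding)).2 huv
  have h1 : ∑ χ : Jx A → Bool, sgn χ * bit (Ls χ) = 0 := by
    have h2 : ∀ χ : Jx A → Bool, sgn χ * bit (Ls χ) =
        sgn χ - sgn χ * bit (PV Q (Vx A) (Gx χ)) := by
      intro χ
      rw [hbit]
      ring
    rw [Finset.sum_congr rfl fun χ _ => h2 χ, Finset.sum_sub_distrib, hrel, sum_sgn, sub_zero]
  have h2 : ∑ χ : Jx A → Bool, sgn χ * bit (Ls χ) =
      (∑ κ : Pr I → Bool, sgn κ * bit (∀ e, κ e = false)) *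
        ∏ i, ∑ b : Bool, ∑ χ : Cl (A i) → Bool,
          (if b = true then (-1 : ℤ) else 1) * (sgn χ * bit (Bad s b χ)) := by
    rw [sum_split, sum_split, ← sum_prod_fun (fun i (b : Bool) => ∑ χ : Cl (A i) → Bool,
      (if b = true then (-1 : ℤ) else 1) * (sgn χ * bit (Bad s b χ))), Finset.mul_sum]
    refine Finset.sum_congr rfl fun β _ => ?_
    rw [Finset.sum_mul]
    refine Finset.sum_congr rfl fun κ _ => ?_
    rw [sum_sigma_fun, ← sum_prod_fun (fun i (χ : Cl (A i) → Bool) =>
      (if β i = true then (-1 : ℤ) else 1) * (sgn χ * bit (Bad s (β i) χ))), Finset.mul_sum]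
    refine Finset.sum_congr rfl fun η _ => ?_
    rw [sgn_sum, sgn_sigma, hLs]
    simp only [Sum.elim_inl, Sum.elim_inr]
    rw [sgn_sum]
    simp only [Sum.elim_inl, Sum.elim_inr]
    rw [bit_and, bit_forall (fun i => Bad s (β i) (fun d => η i d)), Finset.prod_mul_distrib,
      Finset.prod_mul_distrib]
    have h3 : sgn (fun a => β a) = ∏ i, (if β i = true then (-1 : ℤ) else 1) := rfl
    rw [h3]
    ring
  rw [h2, sum_false, one_mul, Finset.prod_eq_zero_iff] at h1
  obtain ⟨i, _, hi⟩ := h1
  rw [sum_bad] at hi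
  exact sum_card_ne (hsq i) (s - 1) (hA i) hi

/-- `n = k p ^ a m + 1`, blocks `(ZMod p) ^ a × ZMod m` -/
theorem equal_blocks {n q s : ℕ} {Q : SimpleGraph (Fin n) → Prop} (hQ : GP n q Q)
    (hlow : ∀ H, HasC H s → Q H) (hup : ∀ H, Q H → Blk H s) (hq : q < n.choose 2) (hs : 4 ≤ s)
    (p a m k : ℕ) (hp : p.Prime) (hn : n = k * (p ^ a * m) + 1) (hk : 0 < k) (hm : Squarefree m)
    (hpm : ¬ p ∣ m) (hdiv : (s - 1) ∣ p ^ a * m)
    (hz : ∀ t : Fin k → ZMod m, ∃ z : ℕ, ∀ i, (z : ZMod m) = t i) : False := by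
  classical
  have : Fact p.Prime := ⟨hp⟩
  have hm0 : m ≠ 0 := hm.ne_zero
  have : NeZero m := ⟨hm0⟩
  have : Nonempty (Fin k) := ⟨⟨0, hk⟩⟩
  have hcard : Fintype.card ((Fin a → ZMod p) × ZMod m) = p ^ a * m := by
    rw [Fintype.card_prod, Fintype.card_fun, ZMod.card, ZMod.card, Fintype.card_fin]
  refine blocks (I := Fin k) (A := fun _ => (Fin a → ZMod p) × ZMod m) hQ hlow hup ?_ p
    (ι := Fin k × Fin a) (fun il => Pi.single il.1 (Pi.single il.2 1, 0)) (fun _ => (0, 1))
    ?_ ?_ hq hs ?_ ?_
  · rw [Fintype.card_option, Fintype.card_sigma, Finset.sum_const, hcard, Finset.card_univ,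
      Fintype.card_fin, smul_eq_mul, hn]
  · rintro ⟨i, l⟩
    rw [← Pi.single_smul, Prod.smul_mk, smul_zero]
    have h1 : p • (Pi.single l (1 : ZMod p) : Fin a → ZMod p) = 0 := by
      rw [← Pi.single_smul, nsmul_eq_mul, CharP.cast_eq_zero, zero_mul, Pi.single_zero]
    rw [h1]
    exact Pi.single_zero i
  · intro t
    obtain ⟨z, hz'⟩ := hz fun i => (t i).2
    have h1 : t = z • (fun _ => ((0 : Fin a → ZMod p), (1 : ZMod m))) +
        ∑ i : Fin k, ∑ l : Fin a, ((t i).1 l).val •
          (Pi.single i ((Pi.single l (1 : ZMod p) : Fin a → ZMod p), (0 : ZMod m)) :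
            Fin k → (Fin a → ZMod p) × ZMod m) := by
      have h2 : ∀ i : Fin k, ∑ l : Fin a, ((t i).1 l).val •
          (Pi.single i ((Pi.single l (1 : ZMod p) : Fin a → ZMod p), (0 : ZMod m)) :
            Fin k → (Fin a → ZMod p) × ZMod m) = Pi.single i ((t i).1, 0) := by
        intro i
        simp_rw [← Pi.single_smul, Prod.smul_mk, smul_zero]
        have h3 : (t i).1 = ∑ l : Fin a, ((t i).1 l).val • (Pi.single l (1 : ZMod p) :
            Fin a → ZMod p) := by
          funext l
          rw [Finset.sum_apply, Finset.sum_eq_single l]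
          · simp
          · intro i _ hi
            simp [Ne.symm hi]
          · intro h
            exact absurd (Finset.mem_univ _) h
        have h4 : ((t i).1, (0 : ZMod m)) = ∑ l : Fin a,
            (((t i).1 l).val • (Pi.single l (1 : ZMod p) : Fin a → ZMod p), (0 : ZMod m)) := by
          refine Prod.ext ?_ ?_
          · rw [Prod.fst_sum]
            exact h3
          · rw [Prod.snd_sum]
            simp
        rw [h4]
        funext j
        rw [Finset.sum_apply]
        by_cases hij : j = i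
        · subst hij
          simp only [Pi.single_eq_same]
        · simp [Pi.single_eq_of_ne hij]
      rw [Finset.sum_congr rfl fun i _ => h2 i]
      funext j
      rw [Pi.add_apply, Finset.sum_apply, Finset.sum_eq_single j]
      · rw [Pi.single_eq_same, Pi.smul_apply]
        refine Prod.ext ?_ ?_
        · simp
        · simp [hz' j]
      · intro i _ hi
        rw [Pi.single_eq_of_ne (Ne.symm hi)]
      · intro h
        exact absurd (Finset.mem_univ _) h
    rw [h1]
    refine AddSubgroup.add_mem _ (AddSubgroup.nsmul_mem _ (AddSubgroup.subset_closure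
      (Set.mem_insert _ _)) _) (AddSubgroup.sum_mem _ fun i0 _ => AddSubgroup.sum_mem _ fun l _ =>
      AddSubgroup.nsmul_mem _
      (AddSubgroup.subset_closure (Set.mem_insert_of_mem _ (Set.mem_range_self (i0, l)))) _)
  · intro _
    rw [hcard]
    exact hdiv
  · intro _ x
    have hsq : Squarefree (p * m) :=
      (Nat.squarefree_mul ((Nat.Prime.coprime_iff_not_dvd hp).2 hpm)).2 ⟨hp.squarefree, hm⟩
    refine hsq.squarefree_of_dvd ?_
    rw [addOrderOf_dvd_iff_nsmul_eq_zero]
    refine Prod.ext ?_ ?_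
    · funext l
      show (p * m) • x.1 l = 0
      rw [nsmul_eq_mul, Nat.cast_mul, CharP.cast_eq_zero, zero_mul, zero_mul]
    · show (p * m) • x.2 = 0
      rw [nsmul_eq_mul, Nat.cast_mul, CharP.cast_eq_zero (ZMod m) m, mul_zero, zero_mul]

end main

end Pool.Agent.Q226.HS
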